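import Pool.Agent.H92.EQ.TF2

/-!
MP_75a732_an, row D7: the powers of the Fubini-Study form and their masses.
-/

set_option autoImplicit false

namespace Pool.Agent.H10.EQ

open scoped BigOperators ComplexConjugate ContDiff ComplexOrder
open MeasureTheory Pool.Agent.H92.EQ

theorem om0 (N : ℕ) : ProjForm (om N 0) := by
  refine ⟨⟨?_, ?_, ?_, ?_, ?_, ?_⟩, ?_, ?_, ?_⟩
  · intro I J
    exact contDiffOn_const
  · intro z _ π I J
    have : π = 1 := Subsingleton.elim _ _
    simp [om, this]
  · intro z _ π I J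
    have : π = 1 := Subsingleton.elim _ _
    simp [om, this]
  · intro z _ c
    simp only [om, mul_one, Fintype.sum_unique]
    rw [Complex.mul_conj]
    exact_mod_cast Complex.normSq_nonneg _
  · intro z _ I J
    simp [om, wd]
  · intro z _ I J
    simp [om, wdb]
  · intro l z _ _ I J
    simp [om]
  · intro z _ I J j
    exact j.elim0
  · intro z _ I J j
    exact j.elim0

theorem massS (hP6 : T_P6) (N p q : ℕ) : mass (q + 1) (om N p) = mass q (om N (p + 1)) := by
  have h := hP6 N p q (om N p) ell (fun _ => ell) (fun _ => 1)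
  have h2 : (Fin.cons (α := fun _ => (Fin N → ℂ) → ℝ) ell (fun _ : Fin q => ell)) =
      fun _ => ell := by
    funext j
    refine Fin.cases rfl (fun _ => rfl) j
  rw [h2] at h
  exact h.symm

theorem massT (hP6 : T_P6) (N : ℕ) : ∀ q p, mass q (om N p) = mass 0 (om N (p + q)) := by
  intro q
  induction q with
  | zero =>
    intro p
    rfl
  | succ q ih =>
    intro p
    rw [massS hP6, ih (p + 1), show p + 1 + q = p + (q + 1) by omega]

/-- mixed discriminant of diagonal matrices -/
theorem mixdiag (m : ℕ) (d : Fin m → Fin m → ℝ) (H : Fin m → Matrix (Fin m) (Fin m) ℂ)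
    (hH : ∀ j a b, H j a b = if a = b then (d j a : ℂ) else 0) :
    mixD (p := 0) (fun _ _ => 1) H =
      ((∑ e : (Fin 0 ⊕ Fin m) ≃ Fin m, ∏ j, d j (e (Sum.inr j)) : ℝ) : ℂ) := by
  unfold mixD
  push_cast
  refine Finset.sum_congr rfl fun e _ => ?_
  rw [Finset.sum_eq_single e]
  · simp [hH]
  · intro e' _ hne
    obtain ⟨x, hx⟩ : ∃ x, e x ≠ e' x := by
      by_contra h
      push Not at h
      exact hne (Equiv.ext fun x => (h x).symm)
    obtain ⟨j, rfl⟩ : ∃ j, x = Sum.inr j := by
      rcases x with x | x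
      · exact x.elim0
      · exact ⟨x, rfl⟩
    rw [Finset.prod_eq_zero (Finset.mem_univ j), mul_zero]
    rw [hH, if_neg hx]
  · intro h
    exact absurd (Finset.mem_univ e) h

theorem qpos (h9 : T_W9) (m : ℕ) (c : ℝ) (hc : 0 < c) :
    0 < Q (om (m + 1) 0) (fun _ : Fin m => ell) (Pi.single 0 (c : ℂ) : Fin (m + 1) → ℂ) := by
  obtain ⟨z, hz⟩ : ∃ z : Fin (m + 1) → ℂ, z = Pi.single 0 (c : ℂ) := ⟨_, rfl⟩
  rw [← hz]
  have hc' : (c : ℂ) ≠ 0 := by exact_mod_cast hc.ne'
  have hz0 : z ≠ 0 := by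
    rw [hz]
    simpa using hc'
  have hn : nsq z = c ^ 2 := by
    unfold nsq
    rw [Finset.sum_eq_single (0 : Fin (m + 1))]
    · rw [hz, Pi.single_eq_same, Complex.norm_real, Real.norm_eq_abs, sq_abs]
    · intro i _ hi
      rw [hz, Pi.single_eq_of_ne hi]
      simp
    · simp
  have hza : ∀ a : Fin (m + 1), z a = if a = 0 then (c : ℂ) else 0 := by
    intro a
    rw [hz, Pi.single_apply]
  obtain ⟨d, hd⟩ : ∃ d : Fin (m + 1) → Fin (m + 1) → ℝ, d =
      Fin.snoc (α := fun _ => Fin (m + 1) → ℝ)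
        (fun _ a => if a = 0 then 0 else 1 / (2 * c ^ 2))
        (fun a => if a = 0 then 1 / (4 * c ^ 2) else 0) := ⟨_, rfl⟩
  have hH : ∀ j a b, (Fin.snoc (α := fun _ => Matrix (Fin (m + 1)) (Fin (m + 1)) ℂ)
      (fun _ : Fin m => hessR ell z) (Rad z)) j a b = if a = b then (d j a : ℂ) else 0 := by
    intro j a b
    have h10 := ((h9 (Fin (m + 1))).2 z hz0).2.2.1
    refine Fin.lastCases ?_ (fun j => ?_) j
    · rw [hd]
      simp only [Fin.snoc_last]
      unfold Rad
      rw [hn, hza, hza]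
      by_cases ha : a = 0
      · by_cases hb : b = 0
        · subst ha
          subst hb
          simp only [if_true, Complex.conj_ofReal]
          push_cast
          field_simp
        · have hab : a ≠ b := fun h => hb (h ▸ ha)
          simp [ha, hb, Ne.symm hb]
      · simp [ha]
    · rw [hd]
      simp only [Fin.snoc_castSucc]
      rw [h10, hn, hza, hza]
      by_cases ha : a = 0
      · by_cases hb : b = 0
        · subst ha
          subst hb
          simp only [if_true, Complex.conj_ofReal]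
          push_cast
          field_simp
          ring
        · simp [ha, hb, Ne.symm hb]
      · by_cases hab : a = b
        · subst hab
          simp [ha]
          ring
        · simp [ha, hab]
  have hmix := mixdiag (m + 1) d _ hH
  unfold Q
  have h1 : om (m + 1) 0 z = fun _ _ => 1 := rfl
  rw [h1, hmix, Complex.ofReal_re]
  have hdn : ∀ j a, 0 ≤ d j a := by
    intro j a
    rw [hd]
    refine Fin.lastCases ?_ (fun j => ?_) j
    · simp only [Fin.snoc_last]
      split_ifs <;> positivity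
    · simp only [Fin.snoc_castSucc]
      split_ifs <;> positivity
  refine Finset.sum_pos' (fun e _ => Finset.prod_nonneg fun j _ => hdn j _)
    ⟨(Equiv.emptySum (Fin 0) (Fin (m + 1))).trans Fin.revPerm, Finset.mem_univ _, ?_⟩
  refine Finset.prod_pos fun j _ => ?_
  simp only [Equiv.trans_apply, Equiv.emptySum_apply_inr, Fin.revPerm_apply]
  rw [hd]
  refine Fin.lastCases ?_ (fun j => ?_) j
  · simp only [Fin.snoc_last, Fin.rev_last, if_true]
    positivity
  · simp only [Fin.snoc_castSucc]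
    rw [if_neg]
    · positivity
    · intro h
      have h2 := congrArg Fin.rev h
      rw [Fin.rev_rev, Fin.rev_zero] at h2
      exact (Fin.castSucc_lt_last j).ne h2

theorem qnn (h9 : T_W9) (hA4 : T_A4) (m : ℕ) (z : Fin (m + 1) → ℂ) :
    0 ≤ Q (om (m + 1) 0) (fun _ : Fin m => ell) z := by
  by_cases hz : z = 0
  · have h0 : mixD (om (m + 1) 0 z) (Fin.snoc (α := fun _ => Matrix (Fin (m + 1)) (Fin (m + 1)) ℂ)
      (fun _ : Fin m => hessR ell z) (Rad z)) = 0 := by
      unfold mixD
      refine Finset.sum_eq_zero fun e _ => Finset.sum_eq_zero fun e' _ => ?_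
      rw [Finset.prod_eq_zero (Finset.mem_univ (Fin.last m)), mul_zero]
      rw [Fin.snoc_last]
      unfold Rad
      simp [hz]
    unfold Q
    rw [h0]
    exact le_of_eq Complex.zero_re.symm
  · have hR : (Rad z).PosSemidef := by
      have h1 : Rad z = ((1 / (4 * nsq z ^ 2) : ℝ) : ℂ) •
          Matrix.vecMulVec (fun a => conj (z a)) (star fun a => conj (z a)) := by
        ext a b
        simp only [Rad, Matrix.smul_apply, Matrix.vecMulVec_apply, Pi.star_apply, smul_eq_mul,
          RCLike.star_def, Complex.conj_conj]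
        push_cast
        ring
      rw [h1]
      refine (Matrix.posSemidef_vecMulVec_self_star _).smul ?_
      exact_mod_cast (by positivity : (0 : ℝ) ≤ 1 / (4 * nsq z ^ 2))
    have h2 : 0 ≤ mixD (om (m + 1) 0 z) (Fin.snoc (α := fun _ =>
        Matrix (Fin (m + 1)) (Fin (m + 1)) ℂ) (fun _ : Fin m => hessR ell z) (Rad z)) := by
      apply hA4
      · exact (om0 (m + 1)).cp.psd z hz
      · intro j
        refine Fin.lastCases ?_ (fun j => ?_) j
        · rw [Fin.snoc_last]
          exact hR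
        · rw [Fin.snoc_castSucc]
          exact ((h9 (Fin (m + 1))).2 z hz).2.2.2.1
    unfold Q
    exact (Complex.le_def.1 h2).1

theorem mpos (h9 : T_W9) (hA4 : T_A4) (hS5 : T_S5) (hP1 : T_P1) (hL1 : T_L1) (hL3 : T_L3)
    (m : ℕ) : 0 < mass m (om (m + 1) 0) := by
  have hell : LH 1 (ell : (Fin (m + 1) → ℂ) → ℝ) :=
    (hL1 (m + 1) 1 1 1 1 ell ell).2.2.1 (hL3 (m + 1)).1
  have hcont := (hS5 (m + 1) 0 m (om (m + 1) 0) (fun _ => ell) (fun _ => 1) (by omega)
    (om0 _) (fun _ => hell)).1
  have hint := (hP1 (m + 1) 0 m (om (m + 1) 0) (fun _ => ell) (fun _ => 1) (by omega)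
    (om0 _) (fun _ => hell)).1 (fun _ => 1) 1 measurable_const (fun _ _ => by simp)
  have hec : ContinuousOn (ell : (Fin (m + 1) → ℂ) → ℝ) {0}ᶜ := (h9 (Fin (m + 1))).1.continuousOn
  unfold mass pair Iint
  rw [setIntegral_pos_iff_support_of_nonneg_ae _ hint]
  · obtain ⟨U, hU⟩ : ∃ U : Set (Fin (m + 1) → ℂ), U = ({0}ᶜ ∩ ell ⁻¹' (Set.Ioo 0 1)) ∩
        ({0}ᶜ ∩ (fun z => Q (om (m + 1) 0) (fun _ : Fin m => ell) z) ⁻¹' (Set.Ioi 0)) :=
      ⟨_, rfl⟩
    have hUo : IsOpen U := by
      rw [hU]
      exact (hec.isOpen_inter_preimage isOpen_compl_singleton isOpen_Ioo).inter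
        (hcont.isOpen_inter_preimage isOpen_compl_singleton isOpen_Ioi)
    have hUn : U.Nonempty := by
      refine ⟨Pi.single 0 ((Real.exp (1 / 2) : ℝ) : ℂ), ?_⟩
      have hc : 0 < Real.exp (1 / 2) := Real.exp_pos _
      have hz0 : (Pi.single 0 ((Real.exp (1 / 2) : ℝ) : ℂ) : Fin (m + 1) → ℂ) ≠ 0 := by
        simp
      have hl : ell (Pi.single 0 ((Real.exp (1 / 2) : ℝ) : ℂ) : Fin (m + 1) → ℂ) = 1 / 2 := by
        unfold ell nsq
        rw [Finset.sum_eq_single (0 : Fin (m + 1))]
        · rw [Pi.single_eq_same, Complex.norm_real, Real.norm_eq_abs, sq_abs, Real.log_pow,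
            Real.log_exp]
          norm_num
        · intro i _ hi
          rw [Pi.single_eq_of_ne hi]
          simp
        · simp
      rw [hU]
      refine ⟨⟨hz0, ?_⟩, ⟨hz0, ?_⟩⟩
      · rw [Set.mem_preimage, hl]
        constructor <;> norm_num
      · exact qpos h9 m _ hc
    refine lt_of_lt_of_le (hUo.measure_pos volume hUn) (measure_mono ?_)
    rw [hU]
    rintro z ⟨⟨_, hz1⟩, ⟨_, hz2⟩⟩
    refine ⟨?_, hz1.1.le, hz1.2⟩
    rw [Function.mem_support, one_mul]
    exact (ne_of_gt hz2)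
  · refine Filter.Eventually.of_forall fun z => ?_
    simp only [Pi.zero_apply, one_mul]
    exact qnn h9 hA4 m z

theorem d7 (h9 : T_W9) (hA4 : T_A4) (hS5 : T_S5) (hP1 : T_P1) (hL1 : T_L1) (hL3 : T_L3)
    (hD6 : T_D6) (hP6 : T_P6) : T_D7 := by
  intro N p
  constructor
  · induction p with
    | zero => exact om0 N
    | succ p ih => exact hD6 N p (om N p) ell ih (hL3 N).1
  · intro q hq
    refine ⟨?_, massT hP6 N q p⟩
    obtain rfl : N = p + q + 1 := hq.symm
    have h := massT hP6 (p + q + 1) (p + q) 0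
    rw [Nat.zero_add] at h
    rw [massT hP6, ← h]
    exact mpos h9 hA4 hS5 hP1 hL1 hL3 (p + q)

end Pool.Agent.H10.EQ
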