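import Pool.Agent.H92.EQ.TF1

/-!
MP_75a732_an, row W2: Wirtinger derivatives of polynomials.
-/

set_option autoImplicit false

namespace Pool.Agent.H10.EQ

open scoped BigOperators ComplexConjugate ContDiff ComplexOrder
open Pool.Agent.H92.EQ

theorem cd {ι : Type} [Fintype ι] (P : MvPolynomial ι ℂ) :
    ContDiff ℝ ∞ (fun w : ι → ℂ => MvPolynomial.eval w P) := by
  induction P using MvPolynomial.induction_on with
  | C c => simpa using (contDiff_const : ContDiff ℝ ∞ fun _ : ι → ℂ => c)
  | add p q hp hq => simpa using hp.add hq
  | mul_X p i hp =>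
    have h : ContDiff ℝ ∞ (fun w : ι → ℂ => w i) := contDiff_apply ℝ ℂ i
    simpa using hp.mul h

theorem fd {ι : Type} [Fintype ι] (i : ι) (z v : ι → ℂ) :
    fderiv ℝ (fun w : ι → ℂ => w i) z v = v i := by
  have h : HasFDerivAt (fun w : ι → ℂ => w i)
      (ContinuousLinearMap.proj (R := ℝ) (φ := fun _ : ι => ℂ) i) z := hasFDerivAt_apply i z
  rw [h.fderiv]
  rfl

theorem w2 (h1 : T_W1) : T_W2 := by
  intro ι _ _ a P z
  refine ⟨?_, ?_, cd P⟩
  · induction P using MvPolynomial.induction_on with
    | C c => simp [wd]
    | add p q hp hq =>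
      have h := (h1 ι a _ _ z ((cd p).differentiable (by simp) z)
        ((cd q).differentiable (by simp) z)).1
      simp only [map_add]
      rw [h, hp, hq]
    | mul_X p i hp =>
      have hX : DifferentiableAt ℝ (fun w : ι → ℂ => w i) z :=
        (contDiff_apply ℝ ℂ i : ContDiff ℝ ∞ _).differentiable (by simp) z
      have h := (h1 ι a _ _ z ((cd p).differentiable (by simp) z) hX).2.2.1
      have h2 : wd a (fun w : ι → ℂ => w i) z = if i = a then 1 else 0 := by
        unfold wd
        rw [fd, fd, Pi.single_apply, Pi.single_apply]
        split_ifs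
        · rw [Complex.I_mul_I]
          norm_num
        · simp
      simp only [map_mul, MvPolynomial.eval_X]
      rw [h, hp, h2, MvPolynomial.pderiv_mul, MvPolynomial.pderiv_X]
      simp only [map_add, map_mul, MvPolynomial.eval_X, Pi.single_apply]
      split_ifs
      · simp only [map_one]
        ring
      · simp only [map_zero]
        ring
  · induction P using MvPolynomial.induction_on with
    | C c => simp [wdb]
    | add p q hp hq =>
      have h := (h1 ι a _ _ z ((cd p).differentiable (by simp) z)
        ((cd q).differentiable (by simp) z)).2.1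
      simp only [map_add]
      rw [h, hp, hq, add_zero]
    | mul_X p i hp =>
      have hX : DifferentiableAt ℝ (fun w : ι → ℂ => w i) z :=
        (contDiff_apply ℝ ℂ i : ContDiff ℝ ∞ _).differentiable (by simp) z
      have h := (h1 ι a _ _ z ((cd p).differentiable (by simp) z) hX).2.2.2.1
      have h2 : wdb a (fun w : ι → ℂ => w i) z = 0 := by
        unfold wdb
        rw [fd, fd, Pi.single_apply, Pi.single_apply]
        split_ifs
        · rw [Complex.I_mul_I]
          norm_num
        · simp
      simp only [map_mul, MvPolynomial.eval_X]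
      rw [h, hp, h2, mul_zero, mul_zero, add_zero]

end Pool.Agent.H10.EQ
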